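import Mathlib
import Pool.Agent.Helper31.LQ.Goals

/-!
# Project LQ (MP_6fb600_gt): packet AVGS
-/

set_option autoImplicit false

namespace Pool.Agent.Helper13.LQ

open MeasureTheory Set
open Pool.Agent.Helper31.LQ
open scoped ENNReal

variable {n d : ℕ}

/-! ### the weights are bounded -/

theorem wt_bound (hV : VD0) (hK : KPF) (hd : 1 ≤ d) (hdn : d < n) (R : ℝ)
    (π : Equiv.Perm (Fin (n + 1))) (o : Fin (n + 1)) (Y : Fin n → Fin d → ℝ) :
    0 ≤ wt R π o Y ∧ wt R π o Y ≤ 1 := by
  classical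
  unfold wt
  split_ifs with h
  · obtain ⟨hg, hf⟩ := h
    obtain ⟨h1, h2, -, h4⟩ := hV n d hd hdn.le Y hg.1
    obtain ⟨-, -, k3, -, k5⟩ := hK n d hd hdn.le Y π hf.1
    have k0 := k5 hf
    have hden : 0 < ((Nst n d : ℝ) * d.factorial) * (volume (lin Y '' D0 n)).toReal := by
      have h5 : (0 : ℝ) < (Nst n d : ℝ) := by exact_mod_cast h4
      have h6 : (0 : ℝ) < (d.factorial : ℝ) := by exact_mod_cast Nat.factorial_pos d
      positivity
    have hkp : kp Y π o ≤ 1 := by
      rw [← k3]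
      exact Finset.single_le_sum (f := fun o => kp Y π o) (fun o _ => k0 o) (Finset.mem_univ o)
    have hdet : |(mat Y π).det| ≤ ((Nst n d : ℝ) * d.factorial) *
        (volume (lin Y '' D0 n)).toReal := by
      rw [h1]
      have h7 := Finset.single_le_sum (f := fun π : Equiv.Perm (Fin (n + 1)) =>
        if IsFac Y π then |(mat Y π).det| else 0) (fun π _ => by
          split_ifs
          · exact abs_nonneg _
          · exact le_rfl) (Finset.mem_univ π)
      rw [if_pos hf] at h7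
      refine h7.trans (le_of_eq ?_)
      refine Finset.sum_congr rfl fun π _ => ?_
      split_ifs <;> rfl
    refine ⟨div_nonneg (mul_nonneg (abs_nonneg _) (k0 o)) hden.le, ?_⟩
    rw [div_le_one hden]
    calc |(mat Y π).det| * kp Y π o ≤ |(mat Y π).det| * 1 :=
          mul_le_mul_of_nonneg_left hkp (abs_nonneg _)
      _ ≤ _ := by rw [mul_one]; exact hdet
  · exact ⟨le_rfl, zero_le_one⟩

theorem wt_meas (hM : MEAS) (hMV : MV) (hD : IsCompact (D0 n)) (R : ℝ)
    (π : Equiv.Perm (Fin (n + 1))) (o : Fin (n + 1)) :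
    Measurable (wt R π o : (Fin n → Fin d → ℝ) → ℝ) := by
  classical
  obtain ⟨m1, m2, m3, -, m5⟩ := hM n d
  have h1 := hMV n d (D0 n) hD
  unfold wt
  refine Measurable.ite ((m5 R).inter (m3 π)) ?_ measurable_const
  refine Measurable.div ?_ ?_
  · exact (continuous_abs.measurable.comp (m1 π)).mul (m2 π o)
  · exact h1.ennreal_toReal.const_mul _

theorem wt_int (hV : VD0) (hK : KPF) (hM : MEAS) (hMV : MV) (hG : AVGG) (hD : IsCompact (D0 n))
    (hd : 1 ≤ d) (hdn : d < n) (R : ℝ) (π : Equiv.Perm (Fin (n + 1))) (o : Fin (n + 1)) :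
    Integrable (wt R π o : (Fin n → Fin d → ℝ) → ℝ) (W0 n d) := by
  have hfin : IsFiniteMeasure (W0 n d) := ⟨lt_top_iff_ne_top.2 (hG n d hd hdn).2.1⟩
  refine Integrable.of_bound (wt_meas hM hMV hD R π o).aestronglyMeasurable 1
    (Filter.Eventually.of_forall fun Y => ?_)
  obtain ⟨h1, h2⟩ := wt_bound hV hK hd hdn R π o Y
  rw [Real.norm_eq_abs, abs_of_nonneg h1]
  exact h2

/-! ### the symmetry -/

theorem int_symm (hS : SYMY) (R : ℝ) (ρ π : Equiv.Perm (Fin (n + 1))) (o : Fin (n + 1)) :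
    ∫ Y : Fin n → Fin d → ℝ, wt R (ρ * π) (ρ o) Y ∂(W0 n d) =
      ∫ Y : Fin n → Fin d → ℝ, wt R π o Y ∂(W0 n d) := by
  classical
  obtain ⟨L, -, hL, hY⟩ := hS n d ρ
  have hdens : ∀ Y : Fin n → Fin d → ℝ, fK d (D0 n) (L Y) * eta (Q0 n) (L Y) =
      fK d (D0 n) Y * eta (Q0 n) Y := by
    intro Y
    obtain ⟨-, -, -, -, -, -, -, h8, h9⟩ := hY Y
    unfold fK
    rw [h8, h9]
  have hmp : MeasurePreserving L (W0 n d) (W0 n d) := by
    refine ⟨L.measurable, ?_⟩
    ext s hs
    rw [Measure.map_apply L.measurable hs]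
    unfold W0
    rw [withDensity_apply _ hs, withDensity_apply _ (L.measurable hs),
      ← hL.setLIntegral_comp_preimage_emb L.measurableEmbedding _ s]
    exact lintegral_congr fun Y => (hdens Y).symm
  rw [← hmp.integral_comp L.measurableEmbedding (fun Y => wt R π o Y)]
  refine integral_congr_ae (Filter.Eventually.of_forall fun Y => ?_)
  obtain ⟨-, h2, -, h4, h5, -, h7, h8, -⟩ := hY Y
  show wt R (ρ * π) (ρ o) Y = wt R π o (L Y)
  unfold wt
  rw [h2 π, h4 π o, h8]
  simp only [h5 π, h7 R]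

theorem emb_swap (π σ : Equiv.Perm (Fin (n + 1))) (h1 : ∀ a : Fin (n + 1), a.val < d → σ a = a)
    (s : Fin d → ℝ) : emb d (π * σ) s = emb d π s := by
  have h2 : ∀ o, ((π * σ).symm o).val < d → (π * σ).symm o = π.symm o := by
    intro o ho
    have h3 := h1 _ ho
    have h4 : (π * σ) ((π * σ).symm o) = o := Equiv.apply_symm_apply _ _
    rw [Equiv.Perm.mul_apply, h3] at h4
    rw [← h4, Equiv.symm_apply_apply, h4]
  have h3 : ∀ o, (π.symm o).val < d → (π * σ).symm o = π.symm o := by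
    intro o ho
    rw [Equiv.symm_apply_eq, Equiv.Perm.mul_apply, h1 _ ho, Equiv.apply_symm_apply]
  funext o
  unfold emb
  by_cases h : (π.symm o).val < d
  · have h4 := h3 o h
    rw [dif_pos h, dif_pos (by rw [h4]; exact h)]
    congr 2
    rw [h4]
  · have h4 : ¬ ((π * σ).symm o).val < d := by
      intro h5
      rw [h2 o h5] at h5
      exact h h5
    rw [dif_neg h, dif_neg h4]

theorem wt_swap (R : ℝ) (π σ : Equiv.Perm (Fin (n + 1)))
    (h1 : ∀ a : Fin (n + 1), a.val < d → σ a = a) (o : Fin (n + 1)) (Y : Fin n → Fin d → ℝ) :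
    wt R (π * σ) o Y = wt R π o Y := by
  classical
  have hm : mat Y (π * σ) = mat Y π := by
    unfold mat
    congr 1
    funext a
    rw [emb_swap π σ h1]
  have hn : nu Y (π * σ) = nu Y π := by
    unfold nu
    rw [hm]
  have hk : ∀ o, kp Y (π * σ) o = kp Y π o := by
    intro o
    unfold kp
    rw [hn]
  have hlt : ∀ o, d ≤ ((π * σ).symm o).val ↔ d ≤ (π.symm o).val := by
    intro o
    rw [← not_lt, ← not_lt, not_iff_not]
    constructor
    · intro ho
      have h3 := h1 _ ho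
      have h4 : (π * σ) ((π * σ).symm o) = o := Equiv.apply_symm_apply _ _
      rw [Equiv.Perm.mul_apply, h3] at h4
      rw [← h4, Equiv.symm_apply_apply]
      exact ho
    · intro ho
      have : (π * σ).symm o = π.symm o := by
        rw [Equiv.symm_apply_eq, Equiv.Perm.mul_apply, h1 _ ho, Equiv.apply_symm_apply]
      rw [this]
      exact ho
  have hf : IsFac Y (π * σ) ↔ IsFac Y π := by
    unfold IsFac
    rw [hm]
    refine and_congr_right fun _ => forall_congr' fun o => ?_
    rw [hlt o, hk o]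
  unfold wt
  rw [hm, hk o]
  simp only [hf]

/-- packet AVGS -/
theorem gAVGS (hV : VD0) (hK : KPF) (hM : MEAS) (hMV : MV) (hG : AVGG) (hS : SYMY)
    (hB : D0B) : AVGS := by
  intro n d hd hdn R _
  have hD : IsCompact (D0 n) := by
    rw [(hB n (by omega)).1]
    exact (Set.finite_range _).isCompact_convexHull (𝕜 := ℝ)
  refine ⟨fun π o => wt_int hV hK hM hMV hG hD hd hdn R π o, ?_⟩
  intro π π' o o' ho ho'
  have key : ∀ (π : Equiv.Perm (Fin (n + 1))) (o : Fin (n + 1)),
      ∫ Y : Fin n → Fin d → ℝ, wt R π o Y ∂(W0 n d) =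
        ∫ Y : Fin n → Fin d → ℝ, wt R 1 (π.symm o) Y ∂(W0 n d) := by
    intro π o
    have h := int_symm hS (d := d) R π 1 (π.symm o)
    rwa [mul_one, Equiv.apply_symm_apply] at h
  rw [key π o, key π' o']
  set b := π.symm o
  set b' := π'.symm o'
  have h1 : ∀ a : Fin (n + 1), a.val < d → Equiv.swap b b' a = a := by
    intro a ha
    refine Equiv.swap_apply_of_ne_of_ne ?_ ?_
    · rintro rfl
      omega
    · rintro rfl
      omega
  have h2 : ∫ Y : Fin n → Fin d → ℝ, wt R 1 b Y ∂(W0 n d) =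
      ∫ Y : Fin n → Fin d → ℝ, wt R (Equiv.swap b b') b Y ∂(W0 n d) := by
    refine integral_congr_ae (Filter.Eventually.of_forall fun Y => ?_)
    have := wt_swap R 1 (Equiv.swap b b') h1 b Y
    rw [one_mul] at this
    exact this.symm
  rw [h2, key (Equiv.swap b b') b, Equiv.symm_swap, Equiv.swap_apply_left]

end Pool.Agent.Helper13.LQ
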