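import Mathlib
import Pool.Agent.Helper31.LQ.Goals

/-!
# Project LQ (MP_6fb600_gt): packet CST
-/

set_option autoImplicit false

namespace Pool.Agent.Helper13.LQ

open MeasureTheory

/-- the sum of the squares of the entries -/
noncomputable def sq {d : ℕ} (g : Fin d → Fin d → ℝ) : ℝ := ∑ i, ∑ j, g i j ^ 2

theorem sq_nonneg' {d : ℕ} (g : Fin d → Fin d → ℝ) : 0 ≤ sq g :=
  Finset.sum_nonneg fun _ _ => Finset.sum_nonneg fun _ _ => sq_nonneg _

theorem abs_le_sq {d : ℕ} (g : Fin d → Fin d → ℝ) (i j : Fin d) : |g i j| ≤ 1 + sq g := by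
  have h1 : g i j ^ 2 ≤ ∑ j, g i j ^ 2 :=
    Finset.single_le_sum (f := fun j => g i j ^ 2) (fun _ _ => sq_nonneg _) (Finset.mem_univ j)
  have h2 : ∑ j, g i j ^ 2 ≤ sq g :=
    Finset.single_le_sum (f := fun i => ∑ j, g i j ^ 2)
      (fun _ _ => Finset.sum_nonneg fun _ _ => sq_nonneg _) (Finset.mem_univ i)
  have h3 : |g i j| ≤ 1 + |g i j| ^ 2 := by nlinarith [sq_nonneg (|g i j| - 1), abs_nonneg (g i j)]
  rw [sq_abs] at h3
  linarith

theorem det_le {d : ℕ} (g : Fin d → Fin d → ℝ) :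
    |(Matrix.of g).det| ≤ (d.factorial : ℝ) * (1 + sq g) ^ d := by
  rw [Matrix.det_apply]
  refine (Finset.abs_sum_le_sum_abs _ _).trans ?_
  have h1 : ∀ σ ∈ (Finset.univ : Finset (Equiv.Perm (Fin d))),
      |Equiv.Perm.sign σ • ∏ i, (Matrix.of g) (σ i) i| ≤ (1 + sq g) ^ d := by
    intro σ _
    have h2 : |Equiv.Perm.sign σ • ∏ i, (Matrix.of g) (σ i) i| = |∏ i, (Matrix.of g) (σ i) i| := by
      rcases Int.units_eq_one_or (Equiv.Perm.sign σ) with h | h
      · rw [h, one_smul]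
      · rw [h, Units.neg_smul, one_smul, abs_neg]
    rw [h2, Finset.abs_prod]
    refine (Finset.prod_le_prod (fun _ _ => abs_nonneg _) fun i _ => abs_le_sq g (σ i) i).trans ?_
    rw [Finset.prod_const, Finset.card_univ, Fintype.card_fin]
  refine (Finset.sum_le_sum h1).trans ?_
  rw [Finset.sum_const, Finset.card_univ, Fintype.card_perm, Fintype.card_fin, nsmul_eq_mul]

/-- the constant -/
noncomputable def cst (d k : ℕ) : ℝ :=
  (d.factorial : ℝ) ^ k * (4 ^ (d * k) * ((d * k).factorial : ℝ) * Real.exp (1 / 4))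

theorem bound (d k : ℕ) (g : Fin d → Fin d → ℝ) :
    |(Matrix.of g).det| ^ k * Real.exp (-(sq g) / 2) ≤ cst d k * Real.exp (-(sq g) / 4) := by
  have hs := sq_nonneg' g
  have h1 : |(Matrix.of g).det| ^ k ≤ (d.factorial : ℝ) ^ k * (1 + sq g) ^ (d * k) := by
    have := pow_le_pow_left₀ (abs_nonneg _) (det_le g) k
    rwa [mul_pow, ← pow_mul] at this
  have h2 : (1 + sq g) ^ (d * k) ≤
      4 ^ (d * k) * ((d * k).factorial : ℝ) * Real.exp (1 / 4) * Real.exp (sq g / 4) := by
    have h3 := Real.pow_div_factorial_le_exp ((1 + sq g) / 4) (by positivity) (d * k)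
    have h4 : (0 : ℝ) < ((d * k).factorial : ℝ) := by exact_mod_cast Nat.factorial_pos _
    rw [div_le_iff₀ h4, div_pow, div_le_iff₀ (by positivity)] at h3
    have h5 : Real.exp ((1 + sq g) / 4) = Real.exp (1 / 4) * Real.exp (sq g / 4) := by
      rw [← Real.exp_add]
      congr 1
      ring
    rw [h5] at h3
    linarith
  have h6 : Real.exp (-(sq g) / 2) = Real.exp (-(sq g) / 4) * Real.exp (-(sq g) / 4) := by
    rw [← Real.exp_add]
    congr 1
    ring
  have h7 : Real.exp (sq g / 4) * Real.exp (-(sq g) / 4) = 1 := by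
    rw [← Real.exp_add]
    have : sq g / 4 + -sq g / 4 = 0 := by ring
    rw [this, Real.exp_zero]
  have hf : (0 : ℝ) ≤ (d.factorial : ℝ) ^ k := by positivity
  calc |(Matrix.of g).det| ^ k * Real.exp (-(sq g) / 2)
      ≤ ((d.factorial : ℝ) ^ k * (1 + sq g) ^ (d * k)) * Real.exp (-(sq g) / 2) :=
        mul_le_mul_of_nonneg_right h1 (Real.exp_pos _).le
    _ ≤ ((d.factorial : ℝ) ^ k * (4 ^ (d * k) * ((d * k).factorial : ℝ) * Real.exp (1 / 4) *
          Real.exp (sq g / 4))) * Real.exp (-(sq g) / 2) :=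
        mul_le_mul_of_nonneg_right (mul_le_mul_of_nonneg_left h2 hf) (Real.exp_pos _).le
    _ = cst d k * (Real.exp (sq g / 4) * Real.exp (-(sq g) / 4)) * Real.exp (-(sq g) / 4) := by
        rw [h6, cst]
        ring
    _ = cst d k * Real.exp (-(sq g) / 4) := by rw [h7, mul_one]

theorem int_exp (d : ℕ) :
    Integrable (fun g : Fin d → Fin d → ℝ => Real.exp (-(sq g) / 4)) := by
  have h1 : Integrable (fun x : ℝ => Real.exp (-(1 / 4) * x ^ 2)) :=
    integrable_exp_neg_mul_sq (by norm_num)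
  have h2 : Integrable (fun x : Fin d → ℝ => ∏ j, Real.exp (-(1 / 4) * x j ^ 2)) :=
    Integrable.fintype_prod (f := fun _ x => Real.exp (-(1 / 4) * x ^ 2)) fun _ => h1
  have h3 : Integrable (fun g : Fin d → Fin d → ℝ => ∏ i, ∏ j, Real.exp (-(1 / 4) * g i j ^ 2)) :=
    Integrable.fintype_prod (E := Fin d → ℝ)
      (f := fun _ x => ∏ j, Real.exp (-(1 / 4) * x j ^ 2)) fun _ => h2
  refine h3.congr (Filter.Eventually.of_forall fun g => ?_)
  show (∏ i, ∏ j, Real.exp (-(1 / 4) * g i j ^ 2)) = Real.exp (-(sq g) / 4)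
  rw [Finset.prod_congr rfl fun i _ => (Real.exp_sum Finset.univ _).symm, ← Real.exp_sum]
  congr 1
  unfold sq
  rw [Finset.sum_congr rfl fun i _ => (Finset.mul_sum _ _ _).symm, ← Finset.mul_sum]
  ring

theorem cont (d k : ℕ) : Continuous fun g : Fin d → Fin d → ℝ =>
    ENNReal.ofReal (|(Matrix.of g).det| ^ k * Real.exp (-(sq g) / 2)) := by
  refine ENNReal.continuous_ofReal.comp ?_
  unfold sq
  have h1 : Continuous fun g : Fin d → Fin d → ℝ => (Matrix.of g).det :=
    Continuous.matrix_det continuous_id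
  fun_prop

/-- packet CST -/
theorem gCST : Pool.Agent.Helper31.LQ.CST := by
  intro d k
  constructor
  · rw [pos_iff_ne_zero]
    intro h0
    have hc := cont d k
    have h1 := (lintegral_eq_zero_iff (μ := (volume : Measure (Fin d → Fin d → ℝ)))
      hc.measurable).1 h0
    have h2 := (hc.ae_eq_iff_eq (volume : Measure (Fin d → Fin d → ℝ)) continuous_const).1 h1
    have h3 := congrFun h2 (1 : Matrix (Fin d) (Fin d) ℝ)
    have h4 : (Matrix.of (1 : Matrix (Fin d) (Fin d) ℝ)).det = 1 := Matrix.det_one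
    rw [h4, abs_one, one_pow, one_mul] at h3
    have h5 := ENNReal.ofReal_eq_zero.1 h3
    exact absurd h5 (not_le.2 (Real.exp_pos _))
  · refine lt_of_le_of_lt (lintegral_mono fun g => ENNReal.ofReal_le_ofReal (bound d k g)) ?_
    exact ((int_exp d).const_mul (cst d k)).lintegral_lt_top

end Pool.Agent.Helper13.LQ
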