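import Mathlib
import Pool.Agent.Helper31.LQ.Goals

/-!
# Project LQ (MP_6fb600_gt): packet PWE
-/

set_option autoImplicit false

namespace Pool.Agent.Helper13.LQ

open MeasureTheory Set
open Pool.Agent.Helper31.LQ
open scoped ENNReal

variable {n : ℕ}

theorem pos_meas (m : ℕ) : MeasurableSet (pos m) := by
  have : pos m = ⋂ a, (fun t : Fin m → ℝ => t a) ⁻¹' (Ioi 0) := by
    ext t
    simp [pos]
  rw [this]
  exact MeasurableSet.iInter fun a => measurable_pi_apply a measurableSet_Ioi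

theorem emb_add (m : ℕ) (π : Equiv.Perm (Fin (n + 1))) (s t : Fin m → ℝ) :
    emb m π (s + t) = emb m π s + emb m π t := by
  funext o
  rw [Pi.add_apply]
  unfold emb
  split_ifs
  · rfl
  · rw [add_zero]

theorem emb_smul (m : ℕ) (π : Equiv.Perm (Fin (n + 1))) (c : ℝ) (t : Fin m → ℝ) :
    emb m π (c • t) = c • emb m π t := by
  funext o
  rw [Pi.smul_apply]
  unfold emb
  split_ifs
  · rfl
  · rw [smul_zero]

theorem emb_cont (m : ℕ) (π : Equiv.Perm (Fin (n + 1))) : Continuous (emb (n := n) m π) := by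
  refine continuous_pi fun o => ?_
  unfold emb
  by_cases h : (π.symm o).val < m
  · simp only [dif_pos h]
    exact continuous_apply _
  · simp only [dif_neg h]
    exact continuous_const

theorem SL.comp_emb {P : (Fin (n + 1) → ℝ) → ℝ} (h : SL (n + 1) P) (m : ℕ)
    (π : Equiv.Perm (Fin (n + 1))) : SL m fun s => P (emb m π s) where
  cont := h.cont.comp (emb_cont m π)
  nn := fun _ => h.nn _
  add := fun s t => by
    rw [emb_add]
    exact h.add _ _
  hom := fun c hc t => by
    rw [emb_smul]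
    exact h.hom c hc _

theorem SL.sh {P : (Fin (n + 1) → ℝ) → ℝ} (h : SL (n + 1) P) (σ : ℝ) (j : Fin (n + 1)) :
    SL (n + 1) (sh σ j P) where
  cont := by
    unfold Pool.Agent.Helper31.LQ.sh
    refine h.cont.comp ?_
    fun_prop
  nn := fun _ => h.nn _
  add := fun s t => by
    unfold Pool.Agent.Helper31.LQ.sh
    have e : s + t - (σ * ∑ o, (s + t) o) • (Pi.single j 1 : Fin (n + 1) → ℝ) =
        (s - (σ * ∑ o, s o) • (Pi.single j 1 : Fin (n + 1) → ℝ)) +
        (t - (σ * ∑ o, t o) • (Pi.single j 1 : Fin (n + 1) → ℝ)) := by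
      simp only [Pi.add_apply, Finset.sum_add_distrib, mul_add, add_smul]
      abel
    rw [e]
    exact h.add _ _
  hom := fun c hc t => by
    unfold Pool.Agent.Helper31.LQ.sh
    have e : c • t - (σ * ∑ o, (c • t) o) • (Pi.single j 1 : Fin (n + 1) → ℝ) =
        c • (t - (σ * ∑ o, t o) • (Pi.single j 1 : Fin (n + 1) → ℝ)) := by
      simp only [Pi.smul_apply, smul_eq_mul, ← Finset.mul_sum, smul_sub, smul_smul]
      congr 2
      ring
    rw [e]
    exact h.hom c hc _

theorem lin_int {α : Type*} [MeasurableSpace α] {μ : Measure α} {f g h : α → ℝ}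
    (hf : Integrable f μ) (hg : Integrable g μ) (hh : Integrable h μ) (k b c e : ℝ) :
    Integrable (fun t => k * (b * (f t - c * g t) + e * h t)) μ ∧
    ∫ t, k * (b * (f t - c * g t) + e * h t) ∂μ =
      k * (b * (∫ t, f t ∂μ - c * ∫ t, g t ∂μ) + e * ∫ t, h t ∂μ) := by
  have h1 : Integrable (fun t => f t - c * g t) μ := hf.sub (hg.const_mul c)
  have h2 : Integrable (fun t => b * (f t - c * g t)) μ := h1.const_mul b
  have h3 : Integrable (fun t => e * h t) μ := hh.const_mul e
  refine ⟨(h2.add h3).const_mul k, ?_⟩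
  rw [integral_const_mul, integral_add h2 h3, integral_const_mul, integral_const_mul,
    integral_sub hf (hg.const_mul c), integral_const_mul]

theorem sum_lin {ι : Type*} (s : Finset ι) (k p q r : ι → ℝ) (e b c f T : ℝ) :
    ∑ o ∈ s, k o * (b * (e * p o - c * q o * (e * T)) + f * (e * r o)) =
      e * (b * (∑ o ∈ s, k o * p o - c * T * ∑ o ∈ s, k o * q o) + f * ∑ o ∈ s, k o * r o) := by
  simp only [Finset.mul_sum, ← Finset.sum_sub_distrib, ← Finset.sum_add_distrib]
  exact Finset.sum_congr rfl fun o _ => by ring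

/-- packet PWE -/
theorem gPWE (hPW : PW) (hX1 : X1) (hX2 : X2) (hRAT : RAT) (hPSI : PSI) : PWE := by
  intro n d hd hdn R hR
  obtain ⟨M, M', hM, hMM, h⟩ := hPW n d hd hdn R hR
  refine ⟨M, M', hM, hMM, ?_⟩
  intro Y hY π hπ K τ hK β hβ0 hβ1
  obtain ⟨C, -, hC⟩ := hPSI n (by omega)
  have hfam : Fam n (psi K) := (hC K τ hK).2.2.2.1
  have hU : SL d (Ups Y π K) := ((hRAT n d hd hdn K τ hK Y hY.1).1 π hπ).1
  have hM' : 0 < M' := by linarith
  have hint : ∀ P : (Fin d → ℝ) → ℝ, SL d P →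
      IntegrableOn (fun t => Real.exp (-∑ a, t a) * P t) (pos d) := by
    intro P hP
    have := (hX1 d P hP 1 one_pos).1
    simpa only [one_mul] using this
  set e : (Fin d → ℝ) → ℝ := fun t => Real.exp (-∑ a, t a) with he
  set S : (Fin d → ℝ) → ℝ := fun t => ∑ a, |t a| with hS
  set P1 : Fin (n + 1) → (Fin d → ℝ) → ℝ := fun o s => sh (M * τ) o (psi K o) (emb d π s) with hP1
  set P2 : Fin (n + 1) → (Fin d → ℝ) → ℝ := fun o s => psi K o (emb d π s) with hP2
  have s1 : ∀ o, SL d (P1 o) := fun o => SL.comp_emb (SL.sh (hfam.sl o) _ _) d π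
  have s2 : ∀ o, SL d (P2 o) := fun o => SL.comp_emb (hfam.sl o) d π
  have iS := hint S (hX2 d).2.1
  have vS : ∫ t in pos d, e t * S t = d := (hX2 d).2.2
  have i1 := fun o => hint (P1 o) (s1 o)
  have i2 := fun o => hint (P2 o) (s2 o)
  have iU := hint _ hU
  -- the integral of the left side
  have iA := fun o => lin_int (i1 o) iS (i2 o) (kp Y π o) (1 - β) (M' * τ * Th o (psi K o))
    (β / M')
  have hL : ∫ t in pos d, ∑ o, kp Y π o * ((1 - β) * (e t * P1 o t -
      M' * τ * Th o (psi K o) * (e t * S t)) + β / M' * (e t * P2 o t)) =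
      ∑ o, kp Y π o * ((1 - β) * (EP d π (sh (M * τ) o (psi K o)) -
        M' * τ * d * Th o (psi K o)) + β / M' * EP d π (psi K o)) := by
    refine (integral_finsetSum _ fun o _ => (iA o).1).trans ?_
    refine Finset.sum_congr rfl fun o _ => ?_
    refine (iA o).2.trans ?_
    have e1 : ∫ t in pos d, e t * P1 o t = EP d π (sh (M * τ) o (psi K o)) := rfl
    have e2 : ∫ t in pos d, e t * P2 o t = EP d π (psi K o) := rfl
    rw [vS, e1, e2]
    ring
  rw [← hL]
  refine setIntegral_mono_on (integrable_finsetSum _ fun o _ => (iA o).1) iU (pos_meas d) ?_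
  intro t ht
  obtain ⟨h1, h2⟩ := h Y hY π hπ K τ hK t ht
  have hSt : S t = ∑ a, t a := Finset.sum_congr rfl fun a _ => abs_of_pos (ht a)
  have e3 : ∑ o, kp Y π o * ((1 - β) * (e t * P1 o t -
      M' * τ * Th o (psi K o) * (e t * S t)) + β / M' * (e t * P2 o t)) =
      e t * ((1 - β) * (∑ o, kp Y π o * P1 o t - M' * τ * (∑ a, t a) *
        ∑ o, kp Y π o * Th o (psi K o)) + β / M' * ∑ o, kp Y π o * P2 o t) := by
    rw [hSt]
    exact sum_lin _ _ _ _ _ _ _ _ _ _
  rw [e3]
  refine mul_le_mul_of_nonneg_left ?_ (Real.exp_pos _).le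
  have h3 : (1 - β) * (∑ o, kp Y π o * P1 o t - M' * τ * (∑ a, t a) *
      ∑ o, kp Y π o * Th o (psi K o)) ≤ (1 - β) * Ups Y π K t :=
    mul_le_mul_of_nonneg_left (by linarith [h1]) (by linarith)
  have h4 : β / M' * ∑ o, kp Y π o * P2 o t ≤ β / M' * (M' * Ups Y π K t) :=
    mul_le_mul_of_nonneg_left h2 (div_nonneg hβ0 hM'.le)
  have h5 : β / M' * (M' * Ups Y π K t) = β * Ups Y π K t := by
    field_simp
  linarith

end Pool.Agent.Helper13.LQ
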